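import Pool.Agent.H52.XH.Targets

/-!
# MP_e37c09_lc, row UNI: definable choice
-/

open Ordinal Cardinal Order Set
open scoped ZFSet

universe u

namespace Pool.Agent.H1.XH

open _root_.HD Pool.Agent.H54.WM Pool.Agent.H52.XH

theorem pf_UNI : T_UNI.{u} := by
  classical
  intro G hG
  obtain ⟨en, hen⟩ := HD.All.en.{u}
  set A : ZFSet.{u} → Set Ordinal.{u} := fun s => {c | HOD (en c) ∧ G s (en c)} with hA
  set Z : ZFSet.{u} → ZFSet.{u} := fun s => if (A s).Nonempty then en (sInf (A s)) else ∅ with hZ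
  refine ⟨Z, ?_, ?_⟩
  · intro s z hz hGz
    obtain ⟨c, hc⟩ := (hen.od z).1 hz.od
    have hne : (A s).Nonempty := ⟨c, by rw [hA]; exact ⟨hc ▸ hz, hc ▸ hGz⟩⟩
    have h1 : Z s = en (sInf (A s)) := if_pos hne
    have h2 : sInf (A s) ∈ A s := csInf_mem hne
    rw [h1]
    exact h2
  · have hN : DZ.{u} fun v => ∀ c y : ZFSet.{u}, (c.IsOrdinal ∧ y = en c.rank) →
        ¬ (HOD y ∧ G (v 0) y) := by
      refine DZ.all (R := fun c v => ∀ y : ZFSet.{u}, (c.IsOrdinal ∧ y = en c.rank) →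
        ¬ (HOD y ∧ G (v 0) y)) (DZ.all (R := fun y v => ((v 0).IsOrdinal ∧ y = en (v 0).rank) →
        ¬ (HOD y ∧ G (v 1) y)) ?_)
      refine DZ.imp ?_ (DZ.not (DZ.and (Pool.Agent.H3.HD.DM.dz_hod 0) ?_))
      · exact hen.dz.ren fun n => if n = 0 then 1 else 0
      · exact hG.ren fun n => if n = 0 then 2 else 0
    have hM : DZ.{u} fun v => ∃ c : ZFSet.{u}, (c.IsOrdinal ∧ v 1 = en c.rank) ∧
        (HOD (v 1) ∧ G (v 0) (v 1)) ∧ ∀ c' ∈ c, ∀ y : ZFSet.{u},
          (c'.IsOrdinal ∧ y = en c'.rank) → ¬ (HOD y ∧ G (v 0) y) := by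
      refine DZ.ex (R := fun c v => (c.IsOrdinal ∧ v 1 = en c.rank) ∧
        (HOD (v 1) ∧ G (v 0) (v 1)) ∧ ∀ c' ∈ c, ∀ y : ZFSet.{u},
          (c'.IsOrdinal ∧ y = en c'.rank) → ¬ (HOD y ∧ G (v 0) y)) ?_
      refine DZ.and ?_ (DZ.and (DZ.and (Pool.Agent.H3.HD.DM.dz_hod 2) ?_) ?_)
      · exact hen.dz.ren fun n => if n = 0 then 0 else 2
      · exact hG.ren fun n => if n = 0 then 1 else 2
      · refine DZ.allMem (R := fun c' v => ∀ y : ZFSet.{u},
          (c'.IsOrdinal ∧ y = en c'.rank) → ¬ (HOD y ∧ G (v 1) y)) 0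
          (DZ.all (R := fun y v => ((v 0).IsOrdinal ∧ y = en (v 0).rank) →
            ¬ (HOD y ∧ G (v 2) y)) ?_)
        refine DZ.imp ?_ (DZ.not (DZ.and (Pool.Agent.H3.HD.DM.dz_hod 0) ?_))
        · exact hen.dz.ren fun n => if n = 0 then 1 else 0
        · exact hG.ren fun n => if n = 0 then 3 else 0
    have hE : DZ.{u} fun v => ∀ y, ¬ y ∈ v 1 :=
      DZ.all (R := fun y v => ¬ y ∈ v 1) (DZ.mem 0 2).not
    refine (hM.or (hE.and hN)).congr fun v => ?_
    have hAe : (∀ c y : ZFSet.{u}, (c.IsOrdinal ∧ y = en c.rank) → ¬ (HOD y ∧ G (v 0) y)) ↔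
        ¬ (A (v 0)).Nonempty := by
      constructor
      · rintro h ⟨c, hc⟩
        refine h c.toZFSet (en c) ⟨ZFSet.isOrdinal_toZFSet c, by rw [rank_toZFSet]⟩ hc
      · rintro h c y ⟨hc, rfl⟩ h1
        exact h ⟨c.rank, h1⟩
    rw [hAe]
    refine Iff.symm ⟨?_, ?_⟩
    · rintro (⟨c, ⟨hc, hv⟩, hG1, hmin⟩ | ⟨he, hn⟩)
      · have hc1 : c.rank ∈ A (v 0) := by
          show HOD (en c.rank) ∧ G (v 0) (en c.rank)
          rw [← hv]
          exact hG1
        have h1 : Z (v 0) = en (sInf (A (v 0))) := if_pos ⟨_, hc1⟩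
        have h2 : sInf (A (v 0)) = c.rank := by
          refine le_antisymm (csInf_le' hc1) ?_
          by_contra hlt
          push Not at hlt
          have h3 : sInf (A (v 0)) ∈ A (v 0) := csInf_mem ⟨_, hc1⟩
          refine hmin (sInf (A (v 0))).toZFSet ?_ (en (sInf (A (v 0))))
            ⟨ZFSet.isOrdinal_toZFSet _, by rw [rank_toZFSet]⟩ h3
          have h4 : c = c.rank.toZFSet := hc.toZFSet_rank_eq.symm
          rw [h4]
          exact toZFSet_mem_toZFSet_iff.2 hlt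
        rw [h1, h2]
        exact hv
      · have h1 : Z (v 0) = ∅ := if_neg hn
        rw [h1]
        exact (ZFSet.eq_empty _).2 he
    · intro hv
      by_cases hne : (A (v 0)).Nonempty
      · left
        have h1 : Z (v 0) = en (sInf (A (v 0))) := if_pos hne
        have h2 : sInf (A (v 0)) ∈ A (v 0) := csInf_mem hne
        rw [h1] at hv
        refine ⟨(sInf (A (v 0))).toZFSet, ⟨ZFSet.isOrdinal_toZFSet _, by
          rw [rank_toZFSet]; exact hv⟩, ?_, ?_⟩
        · rw [hv]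
          exact h2
        · rintro c' hc' y ⟨hco, rfl⟩ h3
          obtain ⟨b, hb, rfl⟩ := mem_toZFSet_iff.1 hc'
          rw [rank_toZFSet] at h3
          exact absurd (csInf_le' (show b ∈ A (v 0) from h3)) (not_le.2 hb)
      · right
        have h1 : Z (v 0) = ∅ := if_neg hne
        rw [h1] at hv
        refine ⟨?_, hne⟩
        rw [hv]
        exact fun y => ZFSet.notMem_empty y

end Pool.Agent.H1.XH
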